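import Pool.Agent.KS6_48.DCD.Final
import Pool.Agent.KS6_48.DCD.Mem

/-!
# Minimum directed cycle decomposition of planar Eulerian digraphs is NP-complete
-/

namespace Pool.Agent.Results.MP_0ab4aa_lc.PlanarNPComplete

open Pool.Agent.NPC Pool.Agent.NPC.KS6_48 Pool.Agent.KS6_48.DCD

/-- The problem whether a planar Eulerian digraph has a decomposition into at most `k` directed
cycles is `NP`-hard (instances `((V, E), k)`, all produced instances being planar Eulerian
digraphs), it has polynomial certificates, and if the least number of cycles of a decomposition of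
a planar Eulerian digraph can be computed in polynomial time, then `NP` is contained in `P`. -/
theorem result :
    (∀ L : Set (List Bool), InNP L →
      ∃ f : List Bool → (List ℕ × List (ℕ × ℕ)) × ℕ,
        PolyTime (fun x => bits (f x)) ∧
        (∀ x, IsDigraph (f x).1.1 (f x).1.2 ∧ Eulerian (f x).1.1 (f x).1.2 ∧
          Planar (f x).1.1 (f x).1.2) ∧
        ∀ x, x ∈ L ↔ Decomp (f x).1.2 (f x).2) ∧
    InNPP (fun I : (List ℕ × List (ℕ × ℕ)) × ℕ =>
      IsDigraph I.1.1 I.1.2 ∧ Eulerian I.1.1 I.1.2 ∧ Decomp I.1.2 I.2) ∧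
    ((∃ F : List Bool → List Bool, PolyTime F ∧
      ∀ (V : List ℕ) (E : List (ℕ × ℕ)), IsDigraph V E → Eulerian V E → Planar V E →
        F (bits (V, E)) = bits (minCycles E)) →
      ∀ L : Set (List Bool), InNP L → InP L) := by
  refine ⟨fun L hL => ?_, mem_decomp, ?_⟩
  · obtain ⟨f, hf, hg, hfL⟩ := hardPr_decomp L hL
    exact ⟨f, PC.toPolyTime hf, fun x => ⟨(hg x).1, (hg x).2.1, (hg x).2.2.1⟩, hfL⟩
  · rintro ⟨F, hF, hFc⟩
    exact collapse hF hFc

end Pool.Agent.Results.MP_0ab4aa_lc.PlanarNPComplete
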